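import Mathlib
import Pool.Agent.H9.NetG

namespace Pool.Agent.Results.MP_f4bed7_co.NoUniform

open SimpleGraph
open scoped ENNReal

/-- The edges with exactly one endpoint in `A`. -/
def edgeBoundary {V : Type} (G : SimpleGraph V) (A : Finset V) : Set (Sym2 V) :=
  {e | ∃ u v, G.Adj u v ∧ u ∈ A ∧ v ∉ A ∧ e = s(u, v)}

/-- The Cheeger constant, valued in `[0, ∞]`. -/
noncomputable def cheeger {V : Type} (G : SimpleGraph V) : ℝ≥0∞ :=
  ⨅ (A : Finset V) (_ : A.Nonempty), ((edgeBoundary G A).encard : ℝ≥0∞) / (A.card : ℝ≥0∞)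

/-- A `k`-net: maximal among the sets whose points are pairwise at distance at least `k`. -/
def IsNet {V : Type} (G : SimpleGraph V) (k : ℕ) (S : Set V) : Prop :=
  Maximal (fun T : Set V => ∀ u ∈ T, ∀ v ∈ T, u ≠ v → k ≤ G.dist u v) S

/-- The `k`-net graph on `S`. -/
def netGraph {V : Type} (G : SimpleGraph V) (k : ℕ) (S : Set V) : SimpleGraph S where
  Adj u v := u ≠ v ∧ G.dist u.1 v.1 ≤ 2 * k
  symm := ⟨fun u v h => ⟨h.1.symm, by rw [dist_comm]; exact h.2⟩⟩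
  loopless := ⟨fun u h => h.1 rfl⟩

/-- The optimal lower bound `f(h, d, k)`. -/
noncomputable def fBound (h : ℝ≥0∞) (d k : ℕ) : ℝ≥0∞ :=
  sInf {c | ∃ (V : Type) (G : SimpleGraph V) (S : Set V), G.Connected ∧ Infinite V ∧
    (∀ v, (G.neighborSet v).encard < d) ∧ h < cheeger G ∧ IsNet G k S ∧
    c = cheeger (netGraph G k S)}

open Pool.Agent.H9.NetG

lemma card_le_boundary {V : Type} (G : SimpleGraph V) (A : Finset V) (B : Finset (V × V))
    (hB : ∀ p ∈ B, G.Adj p.1 p.2 ∧ p.1 ∈ A ∧ p.2 ∉ A) :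
    (B.card : ℕ∞) ≤ (edgeBoundary G A).encard := by
  rw [← Set.encard_coe_eq_coe_finsetCard]
  apply Set.encard_le_encard_of_injOn (f := fun p : V × V => s(p.1, p.2))
  · intro p hp
    exact ⟨p.1, p.2, (hB p hp).1, (hB p hp).2.1, (hB p hp).2.2, rfl⟩
  · intro p hp q hq h
    simp only [Sym2.eq_iff] at h
    rcases h with h | h
    · exact Prod.ext h.1 h.2
    · exact absurd (h.1 ▸ (hB p hp).2.1) (hB q hq).2.2

lemma cheeger_GG (m : ℕ) : 1 < cheeger (GG m) := by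
  have h : (7 / 4 : ℝ≥0∞) ≤ cheeger (GG m) := by
    refine le_iInf fun A => le_iInf fun hA => ?_
    obtain ⟨B, hB, hc⟩ := expand A
    have h1 := ENat.toENNReal_le.2 (card_le_boundary _ A B hB)
    rw [ENat.toENNReal_coe] at h1
    have hpos : (A.card : ℝ≥0∞) ≠ 0 := by exact_mod_cast hA.card_pos.ne'
    rw [ENNReal.le_div_iff_mul_le (Or.inl hpos) (Or.inl (ENNReal.natCast_ne_top _))]
    refine le_trans ?_ h1
    rw [mul_comm, ← mul_div_assoc, ENNReal.div_le_iff (by norm_num) (by norm_num)]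
    have : A.card * 7 ≤ B.card * 4 := by omega
    exact_mod_cast this
  refine lt_of_lt_of_le ?_ h
  rw [ENNReal.lt_div_iff_mul_lt (by norm_num) (by norm_num)]
  norm_num

def seed (m : ℕ) : Set (VV m) :=
  {v | v.i = 2 * m - 1 ∨ (v.l = 5 * m ∧ v.y % 2 ^ (m + 1) = 0)}

lemma seed_sep {m : ℕ} (hm : 1 ≤ m) :
    ∀ u ∈ seed m, ∀ v ∈ seed m, u ≠ v → 2 * m ≤ (GG m).dist u v := by
  have aux : ∀ u ∈ seed m, ∀ v ∈ seed m, u.l < v.l → 2 * m ≤ (GG m).dist u v := by
    intro u hu v hv hlt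
    have h := dist_lvl u v hlt
    have h1 := u.hl
    rcases hv with hv | hv
    · omega
    · rcases hu with hu | hu <;> omega
  intro u hu v hv hne
  rcases lt_trichotomy u.l v.l with h | h | h
  · exact aux u hu v hv h
  · have h1 := u.hl
    have h2 := v.hl
    rcases hu with hu | hu
    · rcases hv with hv | hv
      · have := dist_roots u v hu hv fun e => hne (VV.ext' h (by omega) e)
        omega
      · omega
    · rcases hv with hv | hv
      · omega
      · apply dist_top u v hu.1 hv.1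
        intro e
        apply hne
        refine VV.ext' h (by omega) ?_
        rw [← Nat.div_add_mod u.y (2 ^ (m + 1)), ← Nat.div_add_mod v.y (2 ^ (m + 1)), e, hu.2, hv.2]
  · rw [dist_comm]; exact aux v hv u hu h

lemma exists_net {m : ℕ} (hm : 1 ≤ m) : ∃ S, seed m ⊆ S ∧ IsNet (GG m) (2 * m) S := by
  apply zorn_subset_nonempty
    {T : Set (VV m) | ∀ u ∈ T, ∀ v ∈ T, u ≠ v → 2 * m ≤ (GG m).dist u v} _ _ (seed_sep hm)
  intro c hc hchain _
  refine ⟨⋃₀ c, ?_, fun s hs => Set.subset_sUnion_of_mem hs⟩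
  rintro u ⟨s, hs, hu⟩ v ⟨t, ht, hv⟩ hne
  rcases hchain.total hs ht with h | h
  · exact hc ht u (h hu) v hv hne
  · exact hc hs u hu v (h hv) hne

lemma net_small {m : ℕ} (hm : 1 ≤ m) {S : Set (VV m)} (hs : seed m ⊆ S)
    (hS : IsNet (GG m) (2 * m) S) :
    cheeger (netGraph (GG m) (2 * m) S) ≤ 512 * (m : ℝ≥0∞)⁻¹ := by
  classical
  have hroot : ∀ v ∈ S, 6 * m ≤ v.l → v.i = 2 * m - 1 := by
    intro v hv hl
    have h1 := v.hi
    obtain ⟨u, a, _, c⟩ := to_root (2 * m - 1 - v.i) v hl (by omega)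
    by_cases h : v = u
    · rw [h]; exact a
    · have := hS.prop v hv u (hs (Or.inl a)) h
      omega
  have hfin : {v : S | v.1.l ≤ 8 * m}.Finite :=
    (fin_lvl (m := m) (8 * m)).preimage Subtype.val_injective.injOn
  let A : Finset S := hfin.toFinset
  have hA : ∀ v : S, v ∈ A ↔ v.1.l ≤ 8 * m := fun v => by simp [A]
  have hAcard : 2 ^ (4 * m) ≤ A.card := by
    have hlt : ∀ z : Fin (2 ^ (4 * m)), 2 ^ (m + 1) * z.val < 2 ^ (5 * m + 1 - 3 * 0) := by
      intro z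
      have e : 5 * m + 1 - 3 * 0 = (m + 1) + 4 * m := by omega
      rw [e, pow_add 2 (m + 1)]
      exact Nat.mul_lt_mul_of_pos_left z.2 (by positivity)
    let g : Fin (2 ^ (4 * m)) → S := fun z =>
      ⟨mk (5 * m) 0 (2 ^ (m + 1) * z.val) (by omega) (Or.inl rfl) (hlt z),
        hs (Or.inr ⟨rfl, by simp⟩)⟩
    have := Finset.card_le_card_of_injOn (s := Finset.univ) (t := A) g
      (fun z _ => by
        rw [Finset.mem_coe, hA]
        show 5 * m ≤ 8 * m
        omega)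
      (fun a _ b _ h => by
        have h1 : 2 ^ (m + 1) * a.val = 2 ^ (m + 1) * b.val := congrArg (fun v : S => v.1.y) h
        exact Fin.ext (Nat.eq_of_mul_eq_mul_left (by positivity) h1))
    simpa using this
  let T : Finset (ℕ × ℕ × ℕ × ℕ) :=
    Finset.range 2 ×ˢ Finset.range (2 ^ (2 * m + 6)) ×ˢ Finset.range 2 ×ˢ Finset.range 2
  have hT : T.card = 2 ^ (2 * m + 9) := by
    simp only [T, Finset.card_product, Finset.card_range]
    ring
  have facts : ∀ u v : S, (netGraph (GG m) (2 * m) S).Adj u v → u ∈ A → v ∉ A →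
      u.1.i = 2 * m - 1 ∧ v.1.i = 2 * m - 1 ∧ 8 * m - 1 ≤ u.1.l ∧ u.1.l ≤ 8 * m ∧
      8 * m + 1 ≤ v.1.l ∧ v.1.l ≤ 8 * m + 2 ∧
      u.1.y / 2 ^ (u.1.l - (8 * m - 1)) = v.1.y / 2 ^ (v.1.l - (8 * m - 1)) := by
    intro u v hadj hu hv
    rw [hA] at hu hv
    have hd : (GG m).dist u.1 v.1 ≤ 2 * (2 * m) := hadj.2
    have hvi := hroot v.1 v.2 (by omega)
    have h1 := dist_lvl u.1 v.1 (by omega)
    have hui := hroot u.1 u.2 (by omega)
    refine ⟨hui, hvi, by omega, hu, by omega, by omega, ?_⟩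
    by_contra hne
    have := dist_grp hm u.1 v.1 hui hvi (by omega) (by omega) hne
    omega
  have hbd : (edgeBoundary (netGraph (GG m) (2 * m) S) A).encard ≤ (2 ^ (2 * m + 9) : ℕ) := by
    let B : Set (S × S) := {p | (netGraph (GG m) (2 * m) S).Adj p.1 p.2 ∧ p.1 ∈ A ∧ p.2 ∉ A}
    have h1 : edgeBoundary (netGraph (GG m) (2 * m) S) A ⊆ (fun p : S × S => s(p.1, p.2)) '' B := by
      rintro _ ⟨u, v, a, b, c, rfl⟩
      exact ⟨(u, v), ⟨a, b, c⟩, rfl⟩
    refine (Set.encard_le_encard h1).trans ((Set.encard_image_le _ _).trans ?_)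
    rw [← hT, ← Set.encard_coe_eq_coe_finsetCard]
    apply Set.encard_le_encard_of_injOn
      (f := fun p : S × S => (p.2.1.l - (8 * m + 1), p.2.1.y, p.1.1.l - (8 * m - 1), p.1.1.y % 2))
    · rintro ⟨u, v⟩ ⟨a, b, c⟩
      obtain ⟨f1, f2, f3, f4, f5, f6, f7⟩ := facts u v a b c
      have h2 := v.1.hy
      have h3 : 2 ^ (v.1.l + 1 - 3 * v.1.i) ≤ 2 ^ (2 * m + 6) :=
        Nat.pow_le_pow_right (by norm_num) (by omega)
      simp only [T, Finset.coe_product, Finset.coe_range, Set.mem_prod, Set.mem_Iio]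
      omega
    · rintro ⟨u, v⟩ ⟨a, b, c⟩ ⟨u', v'⟩ ⟨a', b', c'⟩ h
      obtain ⟨f1, f2, f3, f4, f5, f6, f7⟩ := facts u v a b c
      obtain ⟨g1, g2, g3, g4, g5, g6, g7⟩ := facts u' v' a' b' c'
      simp only [Prod.mk.injEq] at h
      obtain ⟨h1, h2, h3, h4⟩ := h
      have e1 : v.1.l = v'.1.l := by omega
      have e2 : u.1.l = u'.1.l := by omega
      have e3 : u.1.y = u'.1.y := by
        rw [e1, h2, ← g7, h3] at f7
        have : u'.1.l - (8 * m - 1) = 0 ∨ u'.1.l - (8 * m - 1) = 1 := by omega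
        rcases this with h | h
        · simpa [h] using f7
        · rw [h, pow_one] at f7
          omega
      exact Prod.ext (Subtype.ext (VV.ext' e2 (f1.trans g1.symm) e3))
        (Subtype.ext (VV.ext' e1 (f2.trans g2.symm) h2))
  have hne : A.Nonempty := Finset.card_pos.1 (lt_of_lt_of_le (by positivity) hAcard)
  refine (iInf_le_of_le A (iInf_le _ hne)).trans ?_
  have h2 := ENat.toENNReal_le.2 hbd
  rw [ENat.toENNReal_coe] at h2
  have hpos : (A.card : ℝ≥0∞) ≠ 0 := by exact_mod_cast hne.card_pos.ne'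
  have hm0 : (m : ℝ≥0∞) ≠ 0 := by exact_mod_cast (by omega : m ≠ 0)
  rw [ENNReal.div_le_iff hpos (ENNReal.natCast_ne_top _)]
  refine h2.trans ?_
  rw [← div_eq_mul_inv, ← ENNReal.mul_div_right_comm,
    ENNReal.le_div_iff_mul_le (Or.inl hm0) (Or.inl (ENNReal.natCast_ne_top _))]
  have h3 : 2 ^ (2 * m + 9) * m ≤ 512 * A.card := by
    have h4 : m ≤ 2 ^ (2 * m) := (Nat.lt_two_pow_self.le).trans
      (Nat.pow_le_pow_right (by norm_num) (by omega))
    calc 2 ^ (2 * m + 9) * m ≤ 2 ^ (2 * m + 9) * 2 ^ (2 * m) := Nat.mul_le_mul_left _ h4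
      _ = 512 * 2 ^ (4 * m) := by ring
      _ ≤ _ := Nat.mul_le_mul_left _ hAcard
  exact_mod_cast h3

theorem result : ⨅ (k : ℕ) (_ : 1 ≤ k), fBound 1 10 k = 0 := by
  have key : ∀ m : ℕ, 1 ≤ m → ⨅ (k : ℕ) (_ : 1 ≤ k), fBound 1 10 k ≤ 512 * (m : ℝ≥0∞)⁻¹ := by
    intro m hm
    obtain ⟨S, hs, hS⟩ := exists_net hm
    refine (iInf_le_of_le (2 * m) (iInf_le _ (by omega))).trans ?_
    refine le_trans (sInf_le ?_) (net_small hm hs hS)
    exact ⟨VV m, GG m, S, conn m, inferInstance, deg, cheeger_GG m, hS, rfl⟩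
  have ht : Filter.Tendsto (fun m : ℕ => 512 * (m : ℝ≥0∞)⁻¹) Filter.atTop (nhds (512 * 0)) :=
    ENNReal.Tendsto.const_mul ENNReal.tendsto_inv_nat_nhds_zero (Or.inr (by norm_num))
  rw [mul_zero] at ht
  exact le_antisymm (ge_of_tendsto ht (Filter.eventually_atTop.2 ⟨1, key⟩)) (by simp)

end Pool.Agent.Results.MP_f4bed7_co.NoUniform
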