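import Mathlib

namespace Pool.Agent.Results.MP_f4bed7_co.RegularTree

open SimpleGraph
open scoped ENNReal

/-- The edges with exactly one endpoint in `A`. -/
def edgeBoundary {V : Type} (G : SimpleGraph V) (A : Finset V) : Set (Sym2 V) :=
  {e | ∃ u v, G.Adj u v ∧ u ∈ A ∧ v ∉ A ∧ e = s(u, v)}

/-- The Cheeger constant, valued in `[0, ∞]`. -/
noncomputable def cheeger {V : Type} (G : SimpleGraph V) : ℝ≥0∞ :=
  ⨅ (A : Finset V) (_ : A.Nonempty), ((edgeBoundary G A).encard : ℝ≥0∞) / (A.card : ℝ≥0∞)

/-- A `k`-net: maximal among the sets whose points are pairwise at distance at least `k`. -/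
def IsNet {V : Type} (G : SimpleGraph V) (k : ℕ) (S : Set V) : Prop :=
  Maximal (fun T : Set V => ∀ u ∈ T, ∀ v ∈ T, u ≠ v → k ≤ G.dist u v) S

/-- The `k`-net graph on `S`. -/
def netGraph {V : Type} (G : SimpleGraph V) (k : ℕ) (S : Set V) : SimpleGraph S where
  Adj u v := u ≠ v ∧ G.dist u.1 v.1 ≤ 2 * k
  symm := ⟨fun u v h => ⟨h.1.symm, by rw [dist_comm]; exact h.2⟩⟩
  loopless := ⟨fun u h => h.1 rfl⟩

lemma abstract {W : Type} (G : SimpleGraph W) (R : W → W → Prop) (D : ℕ)
    (hR : ∀ s t, R s t → G.Adj s t)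
    (hout : ∀ s, ∃ O : Finset W, D ≤ O.card ∧ ∀ t ∈ O, R s t)
    (hin : ∀ t, ∀ F : Finset W, (∀ s ∈ F, R s t) → F.card ≤ 2) (A : Finset W) :
    (((D - 2) * A.card : ℕ) : ℕ∞) ≤ (edgeBoundary G A).encard := by
  classical
  choose O hO hOR using hout
  have h1 : ∑ s ∈ A, (A.filter fun t => t ∈ O s).card ≤ 2 * A.card := by
    have : ∑ s ∈ A, (A.filter fun t => t ∈ O s).card =
        ∑ t ∈ A, (A.filter fun s => t ∈ O s).card := by
      simp only [Finset.card_filter]
      exact Finset.sum_comm
    rw [this, mul_comm, ← smul_eq_mul]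
    apply Finset.sum_le_card_nsmul
    intro t _
    exact hin t _ fun s hs => hOR s t (Finset.mem_filter.1 hs).2
  have h2 : D * A.card ≤ ∑ s ∈ A, (A.filter fun t => t ∈ O s).card + ∑ s ∈ A, (O s \ A).card := by
    rw [← Finset.sum_add_distrib, mul_comm, ← smul_eq_mul]
    apply Finset.card_nsmul_le_sum
    intro s _
    have e : (A.filter fun t => t ∈ O s) = O s ∩ A := by
      ext t; simp [and_comm]
    rw [e, add_comm, Finset.card_sdiff_add_card_inter]
    exact hO s
  let B : Finset (Sym2 W) := A.biUnion fun s => (O s \ A).image fun t => s(s, t)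
  have hB : B.card = ∑ s ∈ A, (O s \ A).card := by
    rw [Finset.card_biUnion]
    · apply Finset.sum_congr rfl
      intro s _
      apply Finset.card_image_of_injective
      intro t t' h
      exact Sym2.congr_right.1 h
    · intro s hs s' hs' hne
      rw [Function.onFun, Finset.disjoint_left]
      intro e he he'
      simp only [Finset.mem_image, Finset.mem_sdiff] at he he'
      obtain ⟨t, ⟨_, ht⟩, rfl⟩ := he
      obtain ⟨t', ⟨_, ht'⟩, h⟩ := he'
      rw [Sym2.eq_iff] at h
      rcases h with h | h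
      · exact hne h.1.symm
      · exact ht' (h.2 ▸ hs)
  have hsub : (B : Set (Sym2 W)) ⊆ edgeBoundary G A := by
    intro e he
    simp only [B, Finset.coe_biUnion, Finset.coe_image, Set.mem_iUnion, Set.mem_image,
      Finset.mem_coe, Finset.mem_sdiff] at he
    obtain ⟨s, hs, t, ⟨h1, h2⟩, rfl⟩ := he
    exact ⟨s, t, hR s t (hOR s t h1), hs, h2, rfl⟩
  have h3 : (D - 2) * A.card ≤ B.card := by
    rw [hB, Nat.sub_mul]; omega
  calc (((D - 2) * A.card : ℕ) : ℕ∞) ≤ (B.card : ℕ∞) := by exact_mod_cast h3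
    _ = (B : Set (Sym2 W)).encard := (Set.encard_coe_eq_coe_finsetCard B).symm
    _ ≤ _ := Set.encard_le_encard hsub

variable {V : Type} {T : SimpleGraph V}

lemma parent_unique (hT : T.IsTree) (r x y z : V) (hy : T.Adj x y)
    (hz : T.Adj x z) (h1 : T.dist r x = T.dist r y + 1) (h2 : T.dist r x = T.dist r z + 1) :
    y = z := by
  obtain ⟨p, hp⟩ := hT.connected.exists_walk_length_eq_dist r y
  obtain ⟨q, hq⟩ := hT.connected.exists_walk_length_eq_dist r z
  have hp' : (p.concat hy.symm).IsPath :=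
    Walk.isPath_of_length_eq_dist _ (by rw [Walk.length_concat, hp, h1])
  have hq' : (q.concat hz.symm).IsPath :=
    Walk.isPath_of_length_eq_dist _ (by rw [Walk.length_concat, hq, h2])
  have := (hT.existsUnique_path r x).unique hp' hq'
  have h3 := congrArg Walk.penultimate this
  simpa using h3

/-- `Up T r e x z`: going `e` steps from `x` towards `r` leads to `z`. -/
inductive Up (T : SimpleGraph V) (r : V) : ℕ → V → V → Prop
  | refl (x : V) : Up T r 0 x x
  | step {e : ℕ} {x y z : V} : T.Adj x y → T.dist r x = T.dist r y + 1 → Up T r e y z →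
      Up T r (e + 1) x z

variable {r : V}

lemma Up.dep {e : ℕ} {x z : V} (h : Up T r e x z) : T.dist r x = T.dist r z + e := by
  induction h with
  | refl => rfl
  | step _ h2 _ ih => omega

lemma Up.dist_le (hT : T.IsTree) {e : ℕ} {x z : V} (h : Up T r e x z) : T.dist x z ≤ e := by
  induction h with
  | refl => simp
  | @step e x y z h1 _ _ ih =>
    have := hT.connected.dist_triangle (u := x) (v := y) (w := z)
    rw [dist_eq_one_iff_adj.2 h1] at this
    omega

lemma Up.trans {a b : ℕ} {x y z : V} (h : Up T r a x y) (h' : Up T r b y z) :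
    Up T r (b + a) x z := by
  induction h with
  | refl => exact h'
  | step h1 h2 _ ih => exact Up.step h1 h2 (ih h')

lemma Up.zero {x y : V} (h : Up T r 0 x y) : x = y := by
  cases h; rfl

lemma Up.det (hT : T.IsTree) {a : ℕ} {x y : V} (h : Up T r a x y) :
    ∀ {c : ℕ} {z : V}, Up T r (c + a) x z → Up T r c y z := by
  induction h with
  | refl => intro c z h; exact h
  | @step e x y w h1 h2 _ ih =>
    intro c z h
    cases h with
    | @step _ _ y' _ g1 g2 g3 =>
      have := parent_unique hT r x y y' h1 g1 h2 g2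
      subst this
      exact ih g3

lemma meet (hT : T.IsTree) {x t : V} (p : T.Walk x t) :
    ∃ a b m, a + b ≤ p.length ∧ Up T r a x m ∧ Up T r b t m := by
  induction p with
  | nil => exact ⟨0, 0, _, le_rfl, Up.refl _, Up.refl _⟩
  | @cons x x' t hadj p ih =>
    obtain ⟨a, b, m, hab, h1, h2⟩ := ih
    simp only [Walk.length_cons]
    rcases hT.dist_eq_dist_add_one_of_adj r hadj with h | h
    · exact ⟨a + 1, b, m, by omega, Up.step hadj h h1, h2⟩
    · have hu : Up T r 1 x' x := Up.step hadj.symm h (Up.refl x)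
      cases a with
      | zero =>
        have := h1.zero
        subst this
        exact ⟨0, 1 + b, x, by omega, Up.refl x, h2.trans hu⟩
      | succ a => exact ⟨a, b, m, by omega, hu.det hT h1, h2⟩

lemma children (hT : T.IsTree) {d : ℕ} (hd : 3 ≤ d) (hreg : ∀ v, (T.neighborSet v).ncard = d)
    (y : V) : ∃ C : Finset V, d - 1 ≤ C.card ∧ ∀ c ∈ C, Up T r 1 c y := by
  classical
  have hfin : (T.neighborSet y).Finite := Set.finite_of_ncard_ne_zero (by rw [hreg]; omega)
  have hc : hfin.toFinset.card = d := by rw [← hreg y, Set.ncard_eq_toFinset_card _ hfin]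
  have h1 := Finset.card_filter_add_card_filter_not (s := hfin.toFinset)
    (fun c => T.dist r c = T.dist r y + 1)
  have h2 : (hfin.toFinset.filter fun c => ¬ T.dist r c = T.dist r y + 1).card ≤ 1 := by
    rw [Finset.card_le_one]
    intro a ha b hb
    simp only [Finset.mem_filter, Set.Finite.mem_toFinset, mem_neighborSet] at ha hb
    have e1 := (hT.dist_eq_dist_add_one_of_adj r ha.1).resolve_right ha.2
    have e2 := (hT.dist_eq_dist_add_one_of_adj r hb.1).resolve_right hb.2
    exact parent_unique hT r y a b ha.1 hb.1 e1 e2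
  refine ⟨hfin.toFinset.filter fun c => T.dist r c = T.dist r y + 1, by omega, fun c hc => ?_⟩
  simp only [Finset.mem_filter, Set.Finite.mem_toFinset, mem_neighborSet] at hc
  exact Up.step hc.1.symm hc.2 (Up.refl y)

lemma level (hT : T.IsTree) {d : ℕ} (hd : 3 ≤ d) (hreg : ∀ v, (T.neighborSet v).ncard = d)
    (s : V) (j : ℕ) : ∃ L : Finset V, (d - 1) ^ j ≤ L.card ∧ ∀ y ∈ L, Up T r j y s := by
  classical
  induction j with
  | zero => exact ⟨{s}, by simp, fun y hy => by rw [Finset.mem_singleton.1 hy]; exact Up.refl s⟩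
  | succ j ih =>
    obtain ⟨L, hL, hLs⟩ := ih
    choose C hC hCs using children (r := r) hT hd hreg
    refine ⟨L.biUnion C, ?_, fun c hc => ?_⟩
    · rw [Finset.card_biUnion]
      · calc (d - 1) ^ (j + 1) ≤ L.card • (d - 1) := by
              rw [pow_succ, smul_eq_mul]; exact Nat.mul_le_mul_right _ hL
          _ ≤ _ := Finset.card_nsmul_le_sum _ _ _ fun y _ => hC y
      · intro y _ y' _ hne
        rw [Function.onFun, Finset.disjoint_left]
        intro c h1 h2
        exact hne ((hCs y c h1).det hT (c := 0) (hCs y' c h2)).zero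
    · obtain ⟨y, hy, hcy⟩ := Finset.mem_biUnion.1 hc
      exact (hCs y c hcy).trans (hLs y hy)

lemma near {k : ℕ} (hk : 1 ≤ k) {S : Set V} (hS : IsNet T k S) (x : V) :
    ∃ t ∈ S, T.dist x t < k := by
  by_contra hcon
  push Not at hcon
  have hP : ∀ u ∈ insert x S, ∀ v ∈ insert x S, u ≠ v → k ≤ T.dist u v := by
    rintro u (rfl | hu) v (rfl | hv) hne
    · exact absurd rfl hne
    · exact hcon v hv
    · rw [dist_comm]; exact hcon u hu
    · exact hS.prop u hu v hv hne
  have hx : x ∈ S := hS.le_of_ge hP (Set.subset_insert x S) (Set.mem_insert x S)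
  have := hcon x hx
  simp at this
  omega

lemma main (hT : T.IsTree) {d : ℕ} (hd : 3 ≤ d) (hreg : ∀ v, (T.neighborSet v).ncard = d)
    {k : ℕ} (hk : 1 ≤ k) {S : Set V} (hS : IsNet T k S) (A : Finset S) :
    ((((d - 1) ^ ((k + 1) / 2 + 1) - 2) * A.card : ℕ) : ℕ∞) ≤
      (edgeBoundary (netGraph T k S) A).encard := by
  classical
  obtain ⟨r⟩ := hT.connected.nonempty
  have gap : ∀ {e : ℕ} {s t : V}, s ∈ S → t ∈ S → 1 ≤ e → Up T r e t s → k ≤ e := by
    intro e s t hs ht he h
    have hne : t ≠ s := by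
      rintro rfl
      have := h.dep
      omega
    exact (hS.prop t ht s hs hne).trans (h.dist_le hT)
  apply abstract _ (fun s t : S => ∃ e, 1 ≤ e ∧ e ≤ 2 * k ∧ Up T r e t.1 s.1)
  · rintro s t ⟨e, h1, h2, h⟩
    refine ⟨?_, ?_⟩
    · rintro rfl
      have := h.dep
      omega
    · rw [dist_comm]; exact (h.dist_le hT).trans h2
  · intro s
    obtain ⟨L, hL, hLs⟩ := level (r := r) hT hd hreg s.1 ((k + 1) / 2 + 1)
    have key : ∀ y, y ∈ L → ∃ t : S, (∃ e, 1 ≤ e ∧ e ≤ 2 * k ∧ Up T r e t.1 s.1) ∧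
        ∃ e', Up T r e' t.1 y := by
      intro y hy
      obtain ⟨L', hL', hL's⟩ := level (r := r) hT hd hreg y (k / 2)
      have hpos : 0 < L'.card := lt_of_lt_of_le (pow_pos (by omega) _) hL'
      obtain ⟨x, hx⟩ := Finset.card_pos.1 hpos
      have hxy := hL's x hx
      have hxs := hxy.trans (hLs y hy)
      obtain ⟨t, ht, hxt⟩ := near hk hS x
      obtain ⟨p, hp⟩ := hT.connected.exists_walk_length_eq_dist x t
      obtain ⟨a, b, m, hab, h1, h2⟩ := meet (r := r) hT p
      have e1 : (k + 1) / 2 + 1 + k / 2 = (k + 1 - a) + a := by omega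
      rw [e1] at hxs
      have hts := h2.trans (h1.det hT hxs)
      have hge := gap s.2 ht (by omega) hts
      have e2 : k / 2 = (k / 2 - a) + a := by omega
      rw [e2] at hxy
      exact ⟨⟨t, ht⟩, ⟨_, by omega, by omega, hts⟩, _, h2.trans (h1.det hT hxy)⟩
    haveI : Nonempty S := ⟨s⟩
    choose! f hf1 hf2 using key
    refine ⟨L.image f, ?_, fun t ht => ?_⟩
    · rw [Finset.card_image_of_injOn]
      · exact hL
      intro y hy y' hy' he
      obtain ⟨e, h⟩ := hf2 y hy
      obtain ⟨e', h'⟩ := hf2 y' hy'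
      rw [← he] at h'
      have d1 := h.dep
      have d2 := h'.dep
      have d3 := (hLs y hy).dep
      have d4 := (hLs y' hy').dep
      have : e' = 0 + e := by omega
      rw [this] at h'
      exact (h.det hT h').zero
    · obtain ⟨y, hy, rfl⟩ := Finset.mem_image.1 ht
      exact hf1 y hy
  · intro t F hF
    have hinj : Set.InjOn (fun s : S => decide (T.dist r t.1 = T.dist r s.1 + 2 * k)) F := by
      have aux : ∀ s s' : S, ∀ e e', 1 ≤ e → e ≤ e' → e' ≤ 2 * k → Up T r e t.1 s.1 →
          Up T r e' t.1 s'.1 → (e = 2 * k ↔ e' = 2 * k) → s = s' := by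
        intro s s' e e' h1 h2 h3 u u' hiff
        have g1 := gap s.2 t.2 h1 u
        have e1 : e' = (e' - e) + e := by omega
        rw [e1] at u'
        have u2 := u.det hT u'
        by_cases h0 : e' - e = 0
        · rw [h0] at u2; exact Subtype.ext u2.zero
        · have g2 := gap s'.2 s.2 (by omega) u2
          omega
      intro s hs s' hs' h
      obtain ⟨e, h1, h2, u⟩ := hF s hs
      obtain ⟨e', h1', h2', u'⟩ := hF s' hs'
      have d1 := u.dep
      have d2 := u'.dep
      simp only [decide_eq_decide] at h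
      rcases le_total e e' with hle | hle
      · exact aux s s' e e' h1 hle h2' u u' (by omega)
      · exact (aux s' s e' e h1' hle h2 u' u (by omega)).symm
    have := Finset.card_le_card_of_injOn _ (fun s _ => Finset.mem_coe.2 (Finset.mem_univ _)) hinj
    simpa using this

theorem result (d : ℕ) (hd : 3 ≤ d) (V : Type) (T : SimpleGraph V) (hT : T.IsTree)
    (hreg : ∀ v, (T.neighborSet v).ncard = d) (k : ℕ) (hk : 1 ≤ k) (S : Set V)
    (hS : IsNet T k S) :
    (((d - 1) ^ ((k + 1) / 2 + 1) - 2 : ℕ) : ℝ≥0∞) ≤ cheeger (netGraph T k S) := by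
  refine le_iInf fun A => le_iInf fun hA => ?_
  have h := main hT hd hreg hk hS A
  have hpos : (A.card : ℝ≥0∞) ≠ 0 := by exact_mod_cast hA.card_pos.ne'
  rw [ENNReal.le_div_iff_mul_le (Or.inl hpos) (Or.inl (ENNReal.natCast_ne_top _))]
  have h2 := ENat.toENNReal_le.2 h
  rw [ENat.toENNReal_coe] at h2
  exact_mod_cast h2

end Pool.Agent.Results.MP_f4bed7_co.RegularTree
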